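import Pool.Agent.W518.SMR.Defs
import Pool.Agent.Helper395.CS.Hyp

/-! # The equality case of Clifford's theorem: reduction to a pencil of degree at most two -/

open scoped WithZero
open WithZero

namespace Q57.BN

open Pool.Agent.Helper395.CS hiding genus
open Pool.Agent.Helper395.BC
open Pool.Agent.W518.SMR

variable {K : Type} [Field K] [Algebra ℂ K]

/-- the line bundle whose stalks are the intersections of the stalks of `L` and `M` -/
noncomputable def linf (L M : LineBundle K) : LineBundle K := by
  classical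
  exact
  { frame := fun v => if v.val (L.frame v : K) ≤ v.val (M.frame v : K) then L.frame v else M.frame v
    finite := (L.finite.union M.finite).subset fun v hv => by
      by_contra hcon
      simp only [Set.mem_union, Set.mem_ofPred_eq, not_or, not_not] at hcon
      apply hv
      split_ifs
      · exact hcon.1
      · exact hcon.2 }

theorem linf_val (L M : LineBundle K) (v : Point K) :
    v.val ((linf L M).frame v : K) = min (v.val (L.frame v : K)) (v.val (M.frame v : K)) := by
  classical
  change v.val ((if v.val (L.frame v : K) ≤ v.val (M.frame v : K) then L.frame v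
    else M.frame v : Kˣ) : K) = _
  split_ifs with h
  · rw [min_eq_left h]
  · rw [min_eq_right (not_le.1 h).le]

theorem H0_linf (L M : LineBundle K) : H0 (linf L M) = H0 L ⊓ H0 M := by
  ext f
  constructor
  · intro h
    refine ⟨fun v => ?_, fun v => ?_⟩
    · have := h v
      change v.val f ≤ v.val _ at this
      rw [linf_val] at this
      exact this.trans (min_le_left _ _)
    · have := h v
      change v.val f ≤ v.val _ at this
      rw [linf_val] at this
      exact this.trans (min_le_right _ _)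
  · rintro ⟨h1, h2⟩ v
    change v.val f ≤ v.val _
    rw [linf_val]
    exact le_min (h1 v) (h2 v)

/-- multiplication by `f` identifies the sections -/
theorem finrank_H0_lprin (hK : IsCurve K) (f : Kˣ) (L : LineBundle K) :
    Module.finrank ℂ (H0 (lmul (lprin hK f) L)) = Module.finrank ℂ (H0 L) := by
  let e : K →ₗ[ℂ] K := LinearMap.mulLeft ℂ (f : K)
  have he : Function.Injective e := fun a b h => mul_left_cancel₀ f.ne_zero h
  have h1 : H0 (lmul (lprin hK f) L) = (H0 L).map e := by
    ext z
    constructor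
    · intro hz
      refine ⟨(f : K)⁻¹ * z, fun v => ?_, ?_⟩
      · have := hz v
        change v.val z ≤ v.val ((f * L.frame v : Kˣ) : K) at this
        rw [Units.val_mul, map_mul] at this
        change v.val ((f : K)⁻¹ * z) ≤ v.val (L.frame v : K)
        rw [map_mul, map_inv₀]
        have h0 : v.val (f : K) ≠ 0 := v.val_ne_zero f.ne_zero
        calc (v.val (f : K))⁻¹ * v.val z ≤ (v.val (f : K))⁻¹ * (v.val (f : K) * v.val (L.frame v : K)) :=
              mul_le_mul' le_rfl this
          _ = _ := inv_mul_cancel_left₀ h0 _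
      · change (f : K) * ((f : K)⁻¹ * z) = z
        rw [mul_inv_cancel_left₀ f.ne_zero]
    · rintro ⟨s, hs, rfl⟩ v
      change v.val ((f : K) * s) ≤ v.val ((f * L.frame v : Kˣ) : K)
      rw [Units.val_mul, map_mul, map_mul]
      exact mul_le_mul' le_rfl (hs v)
  rw [h1]
  exact (Submodule.equivMapOfInjective e he (H0 L)).finrank_eq.symm

theorem degree_lprin_mul (hK : IsCurve K) (f : Kˣ) (L : LineBundle K) :
    (lmul (lprin hK f) L).degree = L.degree := by
  rw [lmul_degree, lprin_degree, zero_add]

theorem exists_point_avoiding (hK : IsCurve K) (S : Set (Point K)) (hS : S.Finite) :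
    ∃ v : Point K, v ∉ S := by
  obtain ⟨t, ht⟩ := exists_transc hK
  by_contra hcon
  push Not at hcon
  have huniv : S = Set.univ := Set.eq_univ_of_forall hcon
  rw [huniv] at hS
  have hfin : Finite (Point K) := Set.finite_univ_iff.1 hS
  choose p hp using fun a : ℂ => exists_point hK ht a
  have hinj : Function.Injective p := by
    intro a b hab
    by_contra hne
    have h1 := hp a
    have h2 := hp b
    rw [← hab] at h2
    have h3 : (p a).val (algebraMap ℂ K (b - a)) < 1 := by
      have : algebraMap ℂ K (b - a) = (t - algebraMap ℂ K a) - (t - algebraMap ℂ K b) := by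
        rw [map_sub]; ring
      rw [this]
      exact (Valuation.map_sub _ _ _).trans_lt (max_lt h1 h2)
    rw [(p a).const _ (sub_ne_zero.2 (Ne.symm hne))] at h3
    exact lt_irrefl _ h3
  exact (Infinite.of_injective p hinj).not_finite hfin

/-- two conditions -/
theorem exists_section (hK : IsCurve K) (hg : genus K ≠ 0) (L : LineBundle K) (P Q : Point K)
    (hPQ : P ≠ Q) (h : 3 ≤ Module.finrank ℂ (H0 L)) :
    ∃ s : K, s ≠ 0 ∧ s ∈ H0 L ∧ P.val s < P.val (L.frame P : K) ∧
      Q.val s < Q.val (L.frame Q : K) := by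
  have key : ∀ (M : LineBundle K) (v : Point K),
      Module.finrank ℂ (H0 M) ≤ Module.finrank ℂ (H0 (lsub M v)) + 1 := by
    intro M v
    have e1 := (rrL hK hg M).2
    have e2 := (rrL hK hg (lsub M v)).2
    rw [lsub_degree] at e2
    have e3 : H0 (lmul (can hK hg) (linv M)) ≤ H0 (lmul (can hK hg) (linv (lsub M v))) := by
      have e4 : H0 (lmul (can hK hg) (linv (lsub M v))) =
          H0 (lmul (lmul (can hK hg) (linv M)) (lpt v)) := by
        apply H0_congr
        intro w
        have : (lmul (can hK hg) (linv (lsub M v))).frame w =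
            (lmul (lmul (can hK hg) (linv M)) (lpt v)).frame w := by
          change (can hK hg).frame w * (M.frame w * ((lpt v).frame w)⁻¹)⁻¹ =
            (can hK hg).frame w * (M.frame w)⁻¹ * (lpt v).frame w
          rw [mul_inv_rev, inv_inv, mul_comm ((lpt v).frame w), mul_assoc]
        unfold LineBundle.stalk
        rw [this]
      rw [e4]
      exact H0_mono (le_lmul_lpt _ v)
    have := H0_finite hK hg (lmul (can hK hg) (linv (lsub M v)))
    have e5 := Submodule.finrank_mono e3
    omega
  have h1 := key L P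
  have h2 := key (lsub L P) Q
  have h3 : 0 < Module.finrank ℂ (H0 (lsub (lsub L P) Q)) := by omega
  have := H0_finite hK hg (lsub (lsub L P) Q)
  obtain ⟨s, hs⟩ := Module.finrank_pos_iff_exists_ne_zero.1 h3
  have hs1 : ∀ v, (s : K) ∈ (lsub (lsub L P) Q).stalk v := s.2
  have hs2 : ∀ v, (s : K) ∈ (lsub L P).stalk v := by
    intro v
    rcases eq_or_ne v Q with rfl | hv
    · exact ((mem_lsub_self _ _ _).1 (hs1 v)).le
    · exact (mem_lsub_ne _ hv _).1 (hs1 v)
  have hs3 : ∀ v, (s : K) ∈ L.stalk v := by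
    intro v
    rcases eq_or_ne v P with rfl | hv
    · exact ((mem_lsub_self _ _ _).1 (hs2 v)).le
    · exact (mem_lsub_ne _ hv _).1 (hs2 v)
  refine ⟨s, fun h => hs (Subtype.ext h), hs3, (mem_lsub_self _ _ _).1 (hs2 P), ?_⟩
  have h4 : Q.val (s : K) < Q.val ((lsub L P).frame Q : K) := (mem_lsub_self _ _ _).1 (hs1 Q)
  have h5 : (lsub L P).frame Q = L.frame Q := by
    change L.frame Q * ((lpt P).frame Q)⁻¹ = _
    rw [lpt_frame_ne hPQ.symm, inv_one, mul_one]
  rwa [h5] at h4

/-- The main step in the proof of the equality case of Clifford's theorem. -/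
theorem clifford_step (hK : IsCurve K) (hg : genus K ≠ 0) (L : LineBundle K)
    (h3 : 3 ≤ Module.finrank ℂ (H0 L)) (hd : L.degree < 2 * genus K - 2)
    (hs : 0 < Module.finrank ℂ (H0 (lmul (can hK hg) (linv L)))) :
    ∃ D : LineBundle K, 1 ≤ D.degree ∧ D.degree < L.degree ∧
      2 * (Module.finrank ℂ (H0 L) : ℤ) - L.degree ≤
        2 * (Module.finrank ℂ (H0 D) : ℤ) - D.degree := by
  classical
  set κ := can hK hg with hκ
  -- the residual divisor
  obtain ⟨t, ht⟩ : ∃ t : H0 (lmul κ (linv L)), t ≠ 0 := by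
    have := H0_finite hK hg (lmul κ (linv L))
    exact Module.finrank_pos_iff_exists_ne_zero.1 hs
  have ht0 : (t : K) ≠ 0 := fun h => ht (Subtype.ext h)
  let T : Kˣ := Units.mk0 (t : K) ht0
  let B : LineBundle K := lmul (lprin hK T⁻¹) (lmul κ (linv L))
  have hBdeg : B.degree = 2 * genus K - 2 - L.degree := by
    rw [degree_lprin_mul, lmul_degree, linv_degree, can_degree]; ring
  have hBfr : ∀ v : Point K, B.frame v = T⁻¹ * (κ.frame v * (L.frame v)⁻¹) := fun v => rfl
  have hBge : ∀ v : Point K, 1 ≤ v.val (B.frame v : K) := by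
    intro v
    have h := t.2 v
    change v.val (t : K) ≤ v.val ((κ.frame v * (L.frame v)⁻¹ : Kˣ) : K) at h
    rw [hBfr, Units.val_mul, map_mul]
    have e : v.val ((T⁻¹ : Kˣ) : K) = (v.val (t : K))⁻¹ := by
      rw [Units.val_inv_eq_inv_val, map_inv₀]
      rfl
    rw [e]
    have h0 : v.val (t : K) ≠ 0 := v.val_ne_zero ht0
    calc (1 : ℤᵐ⁰) = (v.val (t : K))⁻¹ * v.val (t : K) := (inv_mul_cancel₀ h0).symm
      _ ≤ _ := mul_le_mul' le_rfl h
  -- a point `P` of `B`
  obtain ⟨P, hP⟩ : ∃ P : Point K, 1 < P.val (B.frame P : K) := by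
    by_contra hcon
    push Not at hcon
    have : B.degree ≤ (one K).degree := ldegree_le hK fun v s hs => by
      rw [mem_one_stalk]
      exact le_trans hs (hcon v)
    rw [one_degree] at this
    omega
  obtain ⟨Q, hQ⟩ := exists_point_avoiding hK {v | v.val (B.frame v : K) ≠ 1} B.finite
  have hQ1 : Q.val (B.frame Q : K) = 1 := by simpa using hQ
  have hPQ : P ≠ Q := by
    rintro rfl
    rw [hQ1] at hP
    exact lt_irrefl _ hP
  obtain ⟨s, hs0, hsL, hsP, hsQ⟩ := exists_section hK hg L P Q hPQ h3
  let S : Kˣ := Units.mk0 s hs0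
  let A : LineBundle K := lmul (lprin hK S⁻¹) L
  have hAfr : ∀ v : Point K, v.val (A.frame v : K) = (v.val s)⁻¹ * v.val (L.frame v : K) := by
    intro v
    change v.val ((S⁻¹ * L.frame v : Kˣ) : K) = _
    rw [Units.val_mul, map_mul, Units.val_inv_eq_inv_val, map_inv₀]
    rfl
  have hAge : ∀ v : Point K, 1 ≤ v.val (A.frame v : K) := by
    intro v
    rw [hAfr]
    have h0 : v.val s ≠ 0 := v.val_ne_zero hs0
    calc (1 : ℤᵐ⁰) = (v.val s)⁻¹ * v.val s := (inv_mul_cancel₀ h0).symm
      _ ≤ _ := mul_le_mul' le_rfl (hsL v)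
  have hlt : ∀ v : Point K, v.val s < v.val (L.frame v : K) → 1 < v.val (A.frame v : K) := by
    intro v hv
    rw [hAfr]
    have h0 : 0 < v.val s := zero_lt_iff.2 (v.val_ne_zero hs0)
    rw [← div_eq_inv_mul, one_lt_div₀ h0]
    exact hv
  let D := linf A B
  have hDval : ∀ v : Point K, v.val (D.frame v : K) = min (v.val (A.frame v : K)) (v.val (B.frame v : K)) :=
    fun v => linf_val A B v
  -- degrees
  have hDP : (lpt P).degree ≤ D.degree := ldegree_le hK fun v s hs => by
    change v.val s ≤ v.val (D.frame v : K)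
    change v.val s ≤ v.val ((lpt P).frame v : K) at hs
    refine hs.trans ?_
    rcases eq_or_ne v P with rfl | hv
    · have h5 : 1 < v.val (D.frame v : K) := by
        rw [hDval]; exact lt_min (hlt v hsP) hP
      rw [lpt_frame_self, map_inv₀, val_unif]
      have h6 := v.val_ne_zero (D.frame v).ne_zero
      rw [← exp_log h6] at h5 ⊢
      rw [← exp_neg, neg_neg, exp_le_exp]
      rw [← exp_zero, exp_lt_exp] at h5
      omega
    · rw [lpt_frame_ne hv, Units.val_one, map_one, hDval]
      exact le_min (hAge v) (hBge v)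
  have hDQ : (lmul D (lpt Q)).degree ≤ A.degree := ldegree_le hK fun v s hs => by
    change v.val s ≤ v.val (A.frame v : K)
    change v.val s ≤ v.val ((D.frame v * (lpt Q).frame v : Kˣ) : K) at hs
    refine hs.trans ?_
    rw [Units.val_mul, map_mul]
    rcases eq_or_ne v Q with rfl | hv
    · have h5 : v.val (D.frame v : K) = 1 := by
        rw [hDval, hQ1]; exact min_eq_right (hAge v)
      rw [h5, one_mul, lpt_frame_self, map_inv₀, val_unif]
      have h5 := hlt v hsQ
      have h6 := v.val_ne_zero (A.frame v).ne_zero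
      rw [← exp_log h6] at h5 ⊢
      rw [← exp_neg, neg_neg, exp_le_exp]
      rw [← exp_zero, exp_lt_exp] at h5
      omega
    · rw [lpt_frame_ne hv, Units.val_one, map_one, hDval, mul_one]
      exact min_le_left _ _
  have hAdeg : A.degree = L.degree := degree_lprin_mul hK _ _
  rw [lpt_degree] at hDP
  rw [lmul_degree, lpt_degree, hAdeg] at hDQ
  refine ⟨D, hDP, by omega, ?_⟩
  -- sections
  have hA0 : Module.finrank ℂ (H0 A) = Module.finrank ℂ (H0 L) := finrank_H0_lprin hK _ _
  have hB0 : Module.finrank ℂ (H0 B) = Module.finrank ℂ (H0 (lmul κ (linv L))) :=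
    finrank_H0_lprin hK _ _
  have hsup : H0 A ⊔ H0 B ≤ H0 (lmul (lprin hK (S⁻¹ * T⁻¹)) (lmul κ (linv D))) := by
    have hfr : ∀ v : Point K, v.val ((lmul (lprin hK (S⁻¹ * T⁻¹)) (lmul κ (linv D))).frame v : K) =
        max (v.val (A.frame v : K)) (v.val (B.frame v : K)) := by
      intro v
      have e1 : (lmul (lprin hK (S⁻¹ * T⁻¹)) (lmul κ (linv D))).frame v =
          A.frame v * B.frame v * (D.frame v)⁻¹ := by
        change S⁻¹ * T⁻¹ * (κ.frame v * (D.frame v)⁻¹) =
          (S⁻¹ * L.frame v) * (T⁻¹ * (κ.frame v * (L.frame v)⁻¹)) * (D.frame v)⁻¹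
        rw [show (S⁻¹ * L.frame v) * (T⁻¹ * (κ.frame v * (L.frame v)⁻¹)) * (D.frame v)⁻¹ =
          S⁻¹ * T⁻¹ * (κ.frame v * (D.frame v)⁻¹) * (L.frame v * (L.frame v)⁻¹) by
            simp only [mul_assoc, mul_comm, mul_left_comm], mul_inv_cancel, mul_one]
      rw [e1, Units.val_mul, Units.val_mul, map_mul, map_mul, Units.val_inv_eq_inv_val, map_inv₀,
        hDval]
      have ha := v.val_ne_zero (A.frame v).ne_zero
      have hb := v.val_ne_zero (B.frame v).ne_zero
      rcases le_total (v.val (A.frame v : K)) (v.val (B.frame v : K)) with h | h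
      · rw [min_eq_left h, max_eq_right h, mul_comm (v.val (A.frame v : K)),
          mul_inv_cancel_right₀ ha]
      · rw [min_eq_right h, max_eq_left h, mul_inv_cancel_right₀ hb]
    apply sup_le
    · intro z hz v
      change v.val z ≤ _
      rw [hfr]
      exact (hz v).trans (le_max_left _ _)
    · intro z hz v
      change v.val z ≤ _
      rw [hfr]
      exact (hz v).trans (le_max_right _ _)
  have hfA := H0_finite hK hg A
  have hfB := H0_finite hK hg B
  have hfC := H0_finite hK hg (lmul (lprin hK (S⁻¹ * T⁻¹)) (lmul κ (linv D)))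
  have h1 := Submodule.finrank_mono hsup
  rw [finrank_H0_lprin] at h1
  have h2 := Submodule.finrank_sup_add_finrank_inf_eq (H0 A) (H0 B)
  have hinf : H0 A ⊓ H0 B = H0 D := (H0_linf A B).symm
  rw [hinf, hA0, hB0] at h2
  have e1 := (rrL hK hg L).2
  have e2 := (rrL hK hg D).2
  rw [← hκ] at e1 e2
  omega

/-- If `deg L ≤ g - 1` and `2 h⁰(L) ≥ deg L + 2`, the curve has a line bundle of degree at most `2`
with two sections, unless `h⁰(L) ≤ 1`. -/
theorem exists_pencil (hK : IsCurve K) (hg : 2 ≤ genus K) (L : LineBundle K)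
    (h2 : 2 ≤ Module.finrank ℂ (H0 L)) (hd : L.degree ≤ genus K - 1)
    (hL : L.degree + 2 ≤ 2 * (Module.finrank ℂ (H0 L) : ℤ)) :
    ∃ M : LineBundle K, M.degree ≤ 2 ∧ 2 ≤ Module.finrank ℂ (H0 M) := by
  have hg0 : genus K ≠ 0 := by omega
  have hpos : 0 ≤ L.degree := by
    by_contra h
    rw [H0_eq_bot hK (not_le.1 h), finrank_bot] at h2
    omega
  obtain ⟨n, hn⟩ := Int.eq_ofNat_of_zero_le hpos
  induction n using Nat.strong_induction_on generalizing L with
  | _ n ih =>
    rcases Nat.lt_or_ge (Module.finrank ℂ (H0 L)) 3 with h | h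
    · exact ⟨L, by omega, h2⟩
    · have e1 := (rrL hK hg0 L).2
      obtain ⟨D, h1, h2', h3⟩ := clifford_step hK hg0 L h (by omega) (by omega)
      obtain ⟨m, hm⟩ := Int.eq_ofNat_of_zero_le (show 0 ≤ D.degree by omega)
      exact ih m (by omega) D (by omega) (by omega) (by omega) (by omega) hm

theorem transcendental_of_not_const {x : K} (h : ∀ c : ℂ, x ≠ algebraMap ℂ K c) :
    Transcendental ℂ x := by
  by_contra h1
  obtain ⟨c, hc⟩ := exists_const h1
  exact h c hc

/-- A pencil of degree at most `2` gives linear series `g^s_{2s}` for all `s`. -/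
theorem exists_multiple (hK : IsCurve K) (hg : genus K ≠ 0) (M : LineBundle K)
    (hd : M.degree ≤ 2) (h2 : 2 ≤ Module.finrank ℂ (H0 M)) (s : ℕ) :
    ∃ N : LineBundle K, N.degree = 2 * s ∧ s + 1 ≤ Module.finrank ℂ (H0 N) := by
  classical
  -- degree exactly two
  have step : ∀ k : ℕ, ∀ M : LineBundle K, M.degree = 2 - k → 2 ≤ Module.finrank ℂ (H0 M) →
      ∃ M' : LineBundle K, M'.degree = 2 ∧ 2 ≤ Module.finrank ℂ (H0 M') := by
    intro k
    induction k with
    | zero => intro M h h'; exact ⟨M, by simpa using h, h'⟩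
    | succ k ih =>
      intro M h h'
      obtain ⟨v, -⟩ := exists_point_avoiding hK ∅ Set.finite_empty
      have := H0_finite hK hg (lmul M (lpt v))
      refine ih (lmul M (lpt v)) ?_ (h'.trans (Submodule.finrank_mono (H0_mono (le_lmul_lpt M v))))
      rw [lmul_degree, lpt_degree, h]
      push_cast
      ring
  obtain ⟨k, hk⟩ := Int.eq_ofNat_of_zero_le (show 0 ≤ 2 - M.degree by omega)
  obtain ⟨M, hM, h2⟩ := step k M (by omega) h2
  -- an effective representative
  have hfin := H0_finite hK hg M
  obtain ⟨t, ht⟩ := Module.finrank_pos_iff_exists_ne_zero.1 (show 0 < Module.finrank ℂ (H0 M) by omega)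
  have ht0 : (t : K) ≠ 0 := fun h => ht (Subtype.ext h)
  let T : Kˣ := Units.mk0 (t : K) ht0
  let A : LineBundle K := lmul (lprin hK T⁻¹) M
  have hA0 : Module.finrank ℂ (H0 A) = Module.finrank ℂ (H0 M) := finrank_H0_lprin hK _ _
  have hAd : A.degree = 2 := by rw [degree_lprin_mul hK, hM]
  have hAge : ∀ v : Point K, 1 ≤ v.val (A.frame v : K) := by
    intro v
    have h := t.2 v
    change v.val (t : K) ≤ v.val (M.frame v : K) at h
    change (1 : ℤᵐ⁰) ≤ v.val ((T⁻¹ * M.frame v : Kˣ) : K)
    have e : v.val ((T⁻¹ : Kˣ) : K) = (v.val (t : K))⁻¹ := by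
      rw [Units.val_inv_eq_inv_val, map_inv₀]
      rfl
    rw [Units.val_mul, map_mul, e]
    have h0 : v.val (t : K) ≠ 0 := v.val_ne_zero ht0
    calc (1 : ℤᵐ⁰) = (v.val (t : K))⁻¹ * v.val (t : K) := (inv_mul_cancel₀ h0).symm
      _ ≤ _ := mul_le_mul' le_rfl h
  -- a nonconstant section
  obtain ⟨x, hx, hxc⟩ : ∃ x ∈ H0 A, ∀ c : ℂ, x ≠ algebraMap ℂ K c := by
    by_contra hcon
    push Not at hcon
    have h3 : H0 A ≤ Submodule.span ℂ {(1 : K)} := by
      intro x hx
      obtain ⟨c, hc⟩ := hcon x hx
      rw [hc, Algebra.algebraMap_eq_smul_one]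
      exact Submodule.smul_mem _ _ (Submodule.mem_span_singleton_self _)
    have h4 := Submodule.finrank_mono h3
    have h5 := finrank_span_singleton (K := ℂ) (one_ne_zero : (1 : K) ≠ 0)
    omega
  have htr := transcendental_of_not_const hxc
  -- the multiple
  let N : LineBundle K := {
    frame := fun v => A.frame v ^ s
    finite := A.finite.subset fun v hv h => hv (by rw [Units.val_pow_eq_pow_val, map_pow, h, one_pow]) }
  have hNd : N.degree = 2 * s := by
    have : N.degree = s * A.degree := by
      rw [LineBundle.degree, LineBundle.degree, mul_finsum]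
      refine finsum_congr fun v => ?_
      change -v.ord ((A.frame v ^ s : Kˣ) : K) = _
      rw [Units.val_pow_eq_pow_val]
      have : v.ord ((A.frame v : K) ^ s) = s * v.ord (A.frame v : K) := by
        unfold Point.ord
        rw [map_pow, WithZero.log_pow]
        simp
      rw [this]
      ring
    rw [this, hAd]
    ring
  refine ⟨N, hNd, ?_⟩
  have hmem : ∀ i : Fin (s + 1), x ^ (i : ℕ) ∈ H0 N := by
    intro i v
    change v.val (x ^ (i : ℕ)) ≤ v.val ((A.frame v ^ s : Kˣ) : K)
    rw [Units.val_pow_eq_pow_val, map_pow, map_pow]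
    calc v.val x ^ (i : ℕ) ≤ v.val (A.frame v : K) ^ (i : ℕ) := pow_le_pow_left' (hx v) _
      _ ≤ _ := pow_le_pow_right' (hAge v) (by omega)
  have hli : LinearIndependent ℂ (fun i : Fin (s + 1) => x ^ (i : ℕ)) := by
    have h1 := (Polynomial.basisMonomials ℂ).linearIndependent.map'
      (Polynomial.aeval x : Polynomial ℂ →ₐ[ℂ] K).toLinearMap
      (LinearMap.ker_eq_bot.2 (transcendental_iff_injective.1 htr))
    have h2 := h1.comp (fun i : Fin (s + 1) => (i : ℕ)) Fin.val_injective
    have e : (fun i : Fin (s + 1) => x ^ (i : ℕ)) =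
        (⇑(Polynomial.aeval x : Polynomial ℂ →ₐ[ℂ] K).toLinearMap ∘
          ⇑(Polynomial.basisMonomials ℂ)) ∘ fun i : Fin (s + 1) => (i : ℕ) := by
      funext i
      simp
    rw [e]
    exact h2
  have hli2 : LinearIndependent ℂ (fun i : Fin (s + 1) => (⟨x ^ (i : ℕ), hmem i⟩ : H0 N)) :=
    LinearIndependent.of_comp (H0 N).subtype (by simpa [Function.comp_def] using hli)
  have := H0_finite hK hg N
  have h3 := hli2.fintype_card_le_finrank
  simpa using h3

end Q57.BN
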