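import Pool.Agent.Q57.BN.Cliff
import Pool.Agent.Q49.HypGen

/-! # Brill-Noether loci `M^r_{g,2r}` -/

open scoped WithZero
open WithZero

namespace Q57.BN

open Pool.Agent.Helper395.CS hiding genus
open Pool.Agent.Helper395.BC

/-- The curve `C` with function field `K` has a `g^r_d`: a line bundle `L` of degree `d` with
`h⁰(C, L) ≥ r + 1`. -/
def HasSeries (K : Type) [Field K] [Algebra ℂ K] (r d : ℤ) : Prop :=
  ∃ L : LineBundle K, L.degree = d ∧ r + 1 ≤ (Module.finrank ℂ (H0 L) : ℤ)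

/-- The curve `C` with function field `K` belongs to the Brill-Noether locus `M^r_{g,d}`: it is a
smooth irreducible projective curve over `ℂ` of genus `g`, and it has a `g^r_d`. -/
def InLocus (g : ℕ) (r d : ℤ) (K : Type) [Field K] [Algebra ℂ K] : Prop :=
  IsCurve K ∧ genus K = g ∧ HasSeries K r d

/-- The Brill-Noether number `ρ(g,r,d) = g - (r+1)(g-d+r)`. -/
def rho (g : ℕ) (r d : ℤ) : ℤ := g - (r + 1) * (g - d + r)

variable {K : Type} [Field K] [Algebra ℂ K]

theorem hasSeries_of_pencil (hK : IsCurve K) (hg : genus K ≠ 0) {M : LineBundle K}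
    (hd : M.degree ≤ 2) (h2 : 2 ≤ Module.finrank ℂ (H0 M)) {s : ℤ} (hs : 0 ≤ s) :
    HasSeries K s (2 * s) := by
  obtain ⟨n, rfl⟩ := Int.eq_ofNat_of_zero_le hs
  obtain ⟨N, h1, h3⟩ := exists_multiple hK hg M hd h2 n
  exact ⟨N, h1, by exact_mod_cast h3⟩

/-- A curve of genus `g` with a `g^r_{2r}`, `1 ≤ r ≤ (g-1)/2`, has a `g^1_2` and so a `g^s_{2s}` for
all `s ≥ 0`. -/
theorem hasSeries_of_hasSeries {g : ℕ} {r s : ℤ} (hr : 1 ≤ r) (hrg : 2 * r ≤ g - 1) (hs : 0 ≤ s)
    (h : InLocus g r (2 * r) K) : InLocus g s (2 * s) K := by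
  obtain ⟨hK, hg, L, hL, hL2⟩ := h
  refine ⟨hK, hg, ?_⟩
  have hg2 : 2 ≤ genus K := by omega
  obtain ⟨M, h1, h2⟩ := exists_pencil hK hg2 L (by omega) (by omega) (by omega)
  exact hasSeries_of_pencil hK (by omega) h1 h2 hs

/-- There are curves of every genus `g ≥ 1` in all the loci `M^s_{g,2s}`. -/
theorem exists_inLocus {g : ℕ} (hg : 1 ≤ g) : ∃ (K : Type) (_ : Field K) (_ : Algebra ℂ K),
    ∀ s : ℤ, 0 ≤ s → InLocus g s (2 * s) K := by
  obtain ⟨K, _, _, x, y, f, ι, H, hf, hK, hgen⟩ := Q49.HypGen.exists_hyp g hg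
  refine ⟨K, inferInstance, inferInstance, fun s hs => ⟨hK, hgen, ?_⟩⟩
  have hg0 : genus K ≠ 0 := by omega
  have hd : (lineH H.curve H.x_ne 1).degree = 2 := by
    rw [Q49.HypGen.degree_lineH H hf]
    norm_num
  have hfin := H0_finite hK hg0 (lineH H.curve H.x_ne 1)
  refine hasSeries_of_pencil hK hg0 (M := lineH H.curve H.x_ne 1) hd.le ?_ hs
  have h1 : (1 : K) ∈ H0 (lineH H.curve H.x_ne 1) := fun v => by
    change v.val (1 : K) ≤ v.val (dgen x v 1)
    by_cases hv : v.val x ≤ 1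
    · rw [dgen_fin hv]
    · rw [dgen_inf (not_le.1 hv), pow_one, map_one]
      exact (not_le.1 hv).le
  have h2 : x ∈ H0 (lineH H.curve H.x_ne 1) := fun v => by
    change v.val x ≤ v.val (dgen x v 1)
    by_cases hv : v.val x ≤ 1
    · rw [dgen_fin hv, map_one]
      exact hv
    · rw [dgen_inf (not_le.1 hv), pow_one]
  have hli : LinearIndependent ℂ ![(⟨1, h1⟩ : H0 (lineH H.curve H.x_ne 1)), ⟨x, h2⟩] := by
    rw [LinearIndependent.pair_iff]
    intro s t hst
    have h3 : s • (1 : K) + t • x = 0 := congrArg Subtype.val hst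
    have ht : t = 0 := by
      by_contra ht
      apply H.trans
      have : x = algebraMap ℂ K (-s / t) := by
        rw [Algebra.smul_def, Algebra.smul_def, mul_one] at h3
        have ht' : algebraMap ℂ K t ≠ 0 := (map_ne_zero _).2 ht
        rw [map_div₀, map_neg]
        field_simp
        linear_combination h3
      rw [this]
      exact isAlgebraic_algebraMap _
    refine ⟨?_, ht⟩
    rw [ht, zero_smul, add_zero, Algebra.smul_def, mul_one] at h3
    exact (map_eq_zero _).1 h3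
  have := hli.fintype_card_le_finrank
  simpa using this

end Q57.BN
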